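import Pool.Agent.Lib.MP_869d3b_nt.StmK

/-!
# MP_869d3b_nt, piece [K cj]
-/

set_option autoImplicit false

open NumberField IsDedekindDomain

namespace Pool.Agent.Lib.MP_869d3b_nt

theorem p_Kcj (hconj : S_Kconj) : S_Kcj := by
  intro k _ _ _ s r hK p₀ hp w
  obtain ⟨hs, _⟩ := hconj k s r hK
  have hmem : ∀ (w : HeightOneSpectrum (𝓞 k)) (x : 𝓞 k), x ∈ (conjPrime k w).asIdeal ↔
      IsCMField.ringOfIntegersComplexConj k x ∈ w.asIdeal := fun w x => Iff.rfl
  have hcc : ∀ x : 𝓞 k, IsCMField.ringOfIntegersComplexConj k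
      (IsCMField.ringOfIntegersComplexConj k x) = x := by
    intro x
    apply RingOfIntegers.ext
    rw [IsCMField.coe_ringOfIntegersComplexConj, IsCMField.coe_ringOfIntegersComplexConj,
      IsCMField.complexConj_apply_apply]
  have hp0 : IsCMField.ringOfIntegersComplexConj k p₀ = 1 - p₀ := by
    apply RingOfIntegers.ext
    rw [IsCMField.coe_ringOfIntegersComplexConj]
    have h1 : (p₀ : k) = (1 + s) / 2 := by rw [← hp]; ring
    have h2 : ((1 - p₀ : 𝓞 k) : k) = 1 - (p₀ : k) := by simp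
    rw [h2, h1, map_div₀, map_add, map_one, map_ofNat, hs]
    ring
  have hp1 : IsCMField.ringOfIntegersComplexConj k (1 - p₀) = p₀ := by
    rw [← hp0, hcc]
  refine ⟨?_, ?_, ?_, ?_⟩
  · rw [hmem, hp0]
  · rw [hmem, hp1]
  · rw [hmem, map_ofNat]
  · apply HeightOneSpectrum.ext
    ext x
    rw [hmem, hmem, hcc]

end Pool.Agent.Lib.MP_869d3b_nt
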