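import Pool.Agent.Lib.MP_869d3b_nt.StmK

set_option autoImplicit false

open NumberField IsDedekindDomain

namespace Pool.Agent.Lib.MP_869d3b_nt

theorem p_Kcm (hint : S_Kint) (hpr : S_Kpr) (hcj : S_Kcj) : S_Kcm := by
  intro k _ _ _ s r hK p₀ hp
  obtain ⟨-, ρ, hρ⟩ := hint k s r hK
  obtain ⟨h1, h2, h3, -⟩ := hpr k s r hK p₀ ρ hp hρ
  have him : ∀ v : HeightOneSpectrum (𝓞 k),
      v ∈ conjPrime k '' {w : HeightOneSpectrum (𝓞 k) | p₀ ∈ w.asIdeal} ↔ 1 - p₀ ∈ v.asIdeal := by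
    intro v
    constructor
    · rintro ⟨w, hw, rfl⟩
      exact (hcj k s r hK p₀ hp w).2.1.mpr hw
    · intro hv
      obtain ⟨a, -, -, b⟩ := hcj k s r hK p₀ hp v
      exact ⟨conjPrime k v, a.mpr hv, b⟩
  constructor
  · ext v
    rw [Set.mem_union, him v]
    show p₀ ∈ v.asIdeal ∨ 1 - p₀ ∈ v.asIdeal ↔ ((2 : ℕ) : 𝓞 k) ∈ v.asIdeal
    rw [Nat.cast_ofNat]
    constructor
    · rintro (h | h)
      · exact h2 v h
      · exact h3 v h
    · intro h
      rcases (h1 v h).1 with h | h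
      · exact Or.inl h.1
      · exact Or.inr h.2
  · ext v
    rw [Set.mem_inter_iff, him v]
    simp only [Set.mem_empty_iff_false, iff_false, not_and]
    intro (h : p₀ ∈ v.asIdeal) h'
    rcases (h1 v (h2 v h)).1 with g | g
    · exact g.2 h'
    · exact g.1 h

end Pool.Agent.Lib.MP_869d3b_nt
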