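import Pool.Agent.Lib.MP_869d3b_nt.StmK

/-!
# MP_869d3b_nt, [K conj] complex conjugation on `k`
-/

set_option autoImplicit false

open NumberField IsDedekindDomain

namespace Pool.Agent.Lib.MP_869d3b_nt

theorem p_Kconj : S_Kconj := by
  intro k _ _ _ s r h
  obtain ⟨φ⟩ : Nonempty (k →+* ℂ) := inferInstance
  have hc : ∀ x : k, φ (IsCMField.complexConj k x) = (starRingEnd ℂ) (φ x) := fun x =>
    IsCMField.complexEmbedding_complexConj k φ x
  constructor
  · apply φ.injective
    rw [hc, map_neg]
    have h1 : (φ s) ^ 2 = -7 := by
      rw [← map_pow, h.hs, map_neg]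
      congr 1
      exact map_ofNat φ 7
    have hre := congrArg Complex.re h1
    have him := congrArg Complex.im h1
    simp only [pow_two, Complex.mul_re, Complex.mul_im, Complex.neg_re, Complex.neg_im,
      Complex.re_ofNat, Complex.im_ofNat] at hre him
    have h2 : (φ s).re = 0 := by
      have h3 : (φ s).re * (φ s).im = 0 := by linarith
      rcases mul_eq_zero.1 h3 with h4 | h4
      · exact h4
      · rw [h4] at hre
        nlinarith [sq_nonneg (φ s).re]
    apply Complex.ext
    · simp [h2]
    · simp
  · apply φ.injective
    rw [hc]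
    have h1 : (φ r) ^ 2 = 2145 := by
      rw [← map_pow, h.hr]
      exact map_ofNat φ 2145
    have hre := congrArg Complex.re h1
    have him := congrArg Complex.im h1
    simp only [pow_two, Complex.mul_re, Complex.mul_im,
      Complex.re_ofNat, Complex.im_ofNat] at hre him
    have h2 : (φ r).im = 0 := by
      have h3 : (φ r).re * (φ r).im = 0 := by linarith
      rcases mul_eq_zero.1 h3 with h4 | h4
      · rw [h4] at hre
        nlinarith [sq_nonneg (φ r).im]
      · exact h4
    apply Complex.ext
    · simp
    · simp [h2]

end Pool.Agent.Lib.MP_869d3b_nt
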