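import Pool.Agent.Lib.MP_869d3b_nt.StmK

/-!
# MP_869d3b_nt, piece [K deg]
-/

set_option autoImplicit false

open NumberField IsDedekindDomain

namespace Pool.Agent.Lib.MP_869d3b_nt

private theorem kdeg_norm (k : Type) [Field k] [NumberField k] (h4 : Module.finrank ℚ k = 4) :
    Ideal.absNorm (Ideal.span {(2 : 𝓞 k)}) = 16 := by
  rw [Ideal.absNorm_span_singleton]
  have h : (2 : 𝓞 k) = algebraMap ℤ (𝓞 k) 2 := by simp
  rw [h, Algebra.norm_algebraMap, RingOfIntegers.rank, h4]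
  norm_num

private theorem kdeg_two_le (k : Type) [Field k] [NumberField k] (w : HeightOneSpectrum (𝓞 k)) :
    2 ≤ Ideal.absNorm w.asIdeal := by
  have h0 : Ideal.absNorm w.asIdeal ≠ 0 := by
    rw [Ne, Ideal.absNorm_eq_zero_iff]; exact w.ne_bot
  have h1 : Ideal.absNorm w.asIdeal ≠ 1 := by
    rw [Ne, Ideal.absNorm_eq_one_iff]; exact w.isPrime.ne_top
  omega

private theorem kdeg_prod (k : Type) [Field k] [NumberField k] (h4 : Module.finrank ℚ k = 4)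
    (I J K L : Ideal (𝓞 k)) (hIJ : IsCoprime I J) (hIK : IsCoprime I K) (hIL : IsCoprime I L)
    (hJK : IsCoprime J K) (hJL : IsCoprime J L) (hKL : IsCoprime K L)
    (hI : (2 : 𝓞 k) ∈ I) (hJ : (2 : 𝓞 k) ∈ J) (hK : (2 : 𝓞 k) ∈ K) (hL : (2 : 𝓞 k) ∈ L) :
    Ideal.absNorm I * Ideal.absNorm J * Ideal.absNorm K * Ideal.absNorm L ≤ 16 := by
  have hd : ∀ {M : Ideal (𝓞 k)}, (2 : 𝓞 k) ∈ M → M ∣ Ideal.span {(2 : 𝓞 k)} := by
    intro M hM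
    rw [Ideal.dvd_iff_le, Ideal.span_singleton_le_iff_mem]
    exact hM
  have h1 : I * J ∣ Ideal.span {(2 : 𝓞 k)} := hIJ.mul_dvd (hd hI) (hd hJ)
  have h2 : I * J * K ∣ Ideal.span {(2 : 𝓞 k)} := (hIK.mul_left hJK).mul_dvd h1 (hd hK)
  have h3 : I * J * K * L ∣ Ideal.span {(2 : 𝓞 k)} :=
    ((hIL.mul_left hJL).mul_left hKL).mul_dvd h2 (hd hL)
  have h5 := map_dvd Ideal.absNorm h3
  rw [kdeg_norm k h4, map_mul, map_mul, map_mul] at h5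
  exact Nat.le_of_dvd (by norm_num) h5

private theorem kdeg_main (k : Type) [Field k] [NumberField k] (h4 : Module.finrank ℚ k = 4)
    (w a b c : HeightOneSpectrum (𝓞 k)) (hwa : w ≠ a) (hwb : w ≠ b) (hwc : w ≠ c) (hab : a ≠ b)
    (hac : a ≠ c) (hbc : b ≠ c) (hw : (2 : 𝓞 k) ∈ w.asIdeal) (ha : (2 : 𝓞 k) ∈ a.asIdeal)
    (hb : (2 : 𝓞 k) ∈ b.asIdeal) (hc : (2 : 𝓞 k) ∈ c.asIdeal) :
    Nat.card (𝓞 k ⧸ w.asIdeal) = 2 ∧ (2 : 𝓞 k) ∉ w.asIdeal ^ 2 := by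
  have hco : ∀ {u v : HeightOneSpectrum (𝓞 k)}, u ≠ v → IsCoprime u.asIdeal v.asIdeal := by
    intro u v huv
    have := u.isMaximal
    have := v.isMaximal
    exact Ideal.isCoprime_of_isMaximal fun h => huv (HeightOneSpectrum.ext h)
  have hw2 := kdeg_two_le k w
  have ha2 := kdeg_two_le k a
  have hb2 := kdeg_two_le k b
  have hc2 := kdeg_two_le k c
  have habc : 8 ≤ Ideal.absNorm a.asIdeal * Ideal.absNorm b.asIdeal * Ideal.absNorm c.asIdeal :=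
    calc 8 = 2 * 2 * 2 := by norm_num
      _ ≤ _ := Nat.mul_le_mul (Nat.mul_le_mul ha2 hb2) hc2
  constructor
  · have h := kdeg_prod k h4 w.asIdeal a.asIdeal b.asIdeal c.asIdeal (hco hwa) (hco hwb) (hco hwc)
      (hco hab) (hco hac) (hco hbc) hw ha hb hc
    have h' : Ideal.absNorm w.asIdeal * (Ideal.absNorm a.asIdeal * Ideal.absNorm b.asIdeal *
        Ideal.absNorm c.asIdeal) ≤ 16 := by
      calc _ = Ideal.absNorm w.asIdeal * Ideal.absNorm a.asIdeal * Ideal.absNorm b.asIdeal *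
            Ideal.absNorm c.asIdeal := by ring
        _ ≤ 16 := h
    have h3 : Ideal.absNorm w.asIdeal = 2 := by
      nlinarith
    rw [← h3]
    rfl
  · intro hcon
    have h := kdeg_prod k h4 (w.asIdeal ^ 2) a.asIdeal b.asIdeal c.asIdeal (hco hwa).pow_left
      (hco hwb).pow_left (hco hwc).pow_left (hco hab) (hco hac) (hco hbc) hcon ha hb hc
    rw [map_pow] at h
    have h' : Ideal.absNorm w.asIdeal ^ 2 * (Ideal.absNorm a.asIdeal * Ideal.absNorm b.asIdeal *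
        Ideal.absNorm c.asIdeal) ≤ 16 := by
      calc _ = Ideal.absNorm w.asIdeal ^ 2 * Ideal.absNorm a.asIdeal * Ideal.absNorm b.asIdeal *
            Ideal.absNorm c.asIdeal := by ring
        _ ≤ 16 := h
    have h3 : 4 ≤ Ideal.absNorm w.asIdeal ^ 2 := by nlinarith
    have h5 := Nat.mul_le_mul h3 habc
    omega

theorem p_Kdeg (hgal : S_Kgal) (hint : S_Kint) (hpr : S_Kpr) (hfour : S_Kfour) : S_Kdeg := by
  intro k _ _ s r hK w hw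
  obtain ⟨_, h4⟩ := hgal k s r hK
  obtain ⟨⟨p₀, hp⟩, ρ, hρ⟩ := hint k s r hK
  obtain ⟨h1, h2, h2', _⟩ := hpr k s r hK p₀ ρ hp hρ
  obtain ⟨⟨v1, a1, b1⟩, ⟨v2, a2, b2⟩, ⟨v3, a3, b3⟩, ⟨v4, a4, b4⟩⟩ := hfour k s r hK p₀ ρ hp hρ
  -- different values at `x` give different primes
  have hdiff : ∀ (x : 𝓞 k) (u v : HeightOneSpectrum (𝓞 k)), x ∈ u.asIdeal → 1 - x ∈ v.asIdeal →
      u ≠ v := by
    intro x u v hu hv huv
    rw [huv] at hu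
    have h := v.asIdeal.add_mem hu hv
    rw [add_sub_cancel] at h
    exact v.isPrime.ne_top ((Ideal.eq_top_iff_one _).2 h)
  have c1 := h2 v1 a1
  have c2 := h2 v2 a2
  have c3 := h2' v3 a3
  have c4 := h2' v4 a4
  have d12 : v1 ≠ v2 := hdiff ρ v1 v2 b1 b2
  have d13 : v1 ≠ v3 := hdiff p₀ v1 v3 a1 a3
  have d14 : v1 ≠ v4 := hdiff p₀ v1 v4 a1 a4
  have d23 : v2 ≠ v3 := hdiff p₀ v2 v3 a2 a3
  have d24 : v2 ≠ v4 := hdiff p₀ v2 v4 a2 a4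
  have d34 : v3 ≠ v4 := hdiff ρ v3 v4 b3 b4
  obtain ⟨e1, e2⟩ := h1 w hw
  rcases e1 with ⟨e1, _⟩ | ⟨_, e1⟩
  · rcases e2 with ⟨e2, _⟩ | ⟨_, e2⟩
    · exact kdeg_main k h4 w v2 v3 v4 (hdiff ρ w v2 e2 b2) (hdiff p₀ w v3 e1 a3)
        (hdiff p₀ w v4 e1 a4) d23 d24 d34 hw c2 c3 c4
    · exact kdeg_main k h4 w v1 v3 v4 (hdiff ρ v1 w b1 e2).symm (hdiff p₀ w v3 e1 a3)
        (hdiff p₀ w v4 e1 a4) d13 d14 d34 hw c1 c3 c4
  · rcases e2 with ⟨e2, _⟩ | ⟨_, e2⟩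
    · exact kdeg_main k h4 w v1 v2 v4 (hdiff p₀ v1 w a1 e1).symm (hdiff p₀ v2 w a2 e1).symm
        (hdiff ρ w v4 e2 b4) d12 d14 d24 hw c1 c2 c4
    · exact kdeg_main k h4 w v1 v2 v3 (hdiff p₀ v1 w a1 e1).symm (hdiff p₀ v2 w a2 e1).symm
        (hdiff ρ v3 w b3 e2).symm d12 d13 d23 hw c1 c2 c3

end Pool.Agent.Lib.MP_869d3b_nt
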