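import Pool.Agent.Lib.MP_869d3b_nt.StmK

/-!
# MP_869d3b_nt, [K ex]: existence of the CM field `k = ℚ(s, r)`
-/

set_option autoImplicit false

open NumberField IsDedekindDomain

namespace Pool.Agent.Lib.MP_869d3b_nt

/-- existence of a number field with the two square roots -/
private theorem kex_field : ∃ (k : Type) (_ : Field k) (_ : NumberField k) (s r : k),
    IsK k s r := by
  obtain ⟨s, hs⟩ : ∃ s : ℂ, s ^ 2 = -7 := by
    obtain ⟨s, hs⟩ := IsAlgClosed.exists_pow_nat_eq (-7 : ℂ) (n := 2) (by norm_num)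
    exact ⟨s, hs⟩
  obtain ⟨r, hr⟩ : ∃ r : ℂ, r ^ 2 = 2145 := by
    obtain ⟨r, hr⟩ := IsAlgClosed.exists_pow_nat_eq (2145 : ℂ) (n := 2) (by norm_num)
    exact ⟨r, hr⟩
  have hi : ∀ x ∈ ({s, r} : Set ℂ), IsIntegral ℚ x := by
    intro x hx
    rcases hx with rfl | hx
    · refine IsIntegral.of_pow (n := 2) (by norm_num) ?_
      rw [hs]
      have := isIntegral_algebraMap (R := ℚ) (A := ℂ) (x := (-7 : ℚ))
      simpa using this
    · rw [Set.mem_singleton_iff] at hx
      subst hx
      refine IsIntegral.of_pow (n := 2) (by norm_num) ?_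
      rw [hr]
      have := isIntegral_algebraMap (R := ℚ) (A := ℂ) (x := (2145 : ℚ))
      simpa using this
  let K := IntermediateField.adjoin ℚ ({s, r} : Set ℂ)
  haveI : Finite ({s, r} : Set ℂ) := Set.Finite.to_subtype (by simp)
  haveI : FiniteDimensional ℚ K := IntermediateField.finiteDimensional_adjoin hi
  haveI : NumberField K := ⟨⟩
  have hsK : s ∈ K := IntermediateField.subset_adjoin _ _ (by simp)
  have hrK : r ∈ K := IntermediateField.subset_adjoin _ _ (by simp)
  refine ⟨K, inferInstance, inferInstance, ⟨s, hsK⟩, ⟨r, hrK⟩, ?_, ?_, ?_⟩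
  · apply Subtype.ext
    change s ^ 2 = -7
    exact hs
  · apply Subtype.ext
    change r ^ 2 = 2145
    exact hr
  · rw [eq_top_iff]
    rintro ⟨x, hx⟩ -
    induction hx using IntermediateField.adjoin_induction with
    | mem x hx =>
      apply IntermediateField.subset_adjoin
      rcases hx with rfl | hx
      · exact Or.inl rfl
      · rw [Set.mem_singleton_iff] at hx
        subst hx
        exact Or.inr rfl
    | algebraMap q =>
      have e : (⟨algebraMap ℚ ℂ q, K.algebraMap_mem q⟩ : K) = algebraMap ℚ K q := by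
        apply Subtype.ext
        simp
      rw [e]
      exact IntermediateField.algebraMap_mem _ _
    | add x y hx hy h1 h2 => exact add_mem h1 h2
    | inv x hx h => exact inv_mem h
    | mul x y hx hy h1 h2 => exact mul_mem h1 h2

theorem p_Kex (hgal : S_Kgal) (haut : S_Kaut) (htc : S_Ktc) : S_Kex := by
  obtain ⟨k, i1, i2, s, r, hk⟩ := kex_field
  haveI : IsTotallyComplex k := htc k s r hk
  haveI : IsGalois ℚ k := (hgal k s r hk).1
  obtain ⟨a1, a2, _⟩ := haut k s r hk
  have hinv : ∀ σ : k ≃ₐ[ℚ] k, σ * σ = 1 := by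
    intro σ
    apply a2
    · rw [AlgEquiv.mul_apply]
      rcases (a1 σ).1 with h | h
      · rw [h, h]
      · rw [h, map_neg, h, neg_neg]
    · rw [AlgEquiv.mul_apply]
      rcases (a1 σ).2 with h | h
      · rw [h, h]
      · rw [h, map_neg, h, neg_neg]
  have hcomm : ∀ σ τ : k ≃ₐ[ℚ] k, σ * τ = τ * σ := by
    intro σ τ
    have h1 : σ⁻¹ = σ := inv_eq_of_mul_eq_one_left (hinv σ)
    have h2 : τ⁻¹ = τ := inv_eq_of_mul_eq_one_left (hinv τ)
    have h3 : (σ * τ)⁻¹ = σ * τ := inv_eq_of_mul_eq_one_left (hinv _)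
    rw [← h3, mul_inv_rev, h1, h2]
  haveI : IsMulCommutative (k ≃ₐ[ℚ] k) := ⟨⟨hcomm⟩⟩
  haveI : IsAbelianGalois ℚ k := {}
  haveI : IsCMField k := IsCMField.of_isAbelianGalois k
  exact ⟨k, i1, i2, inferInstance, s, r, hk⟩

end Pool.Agent.Lib.MP_869d3b_nt
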