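import Pool.Agent.Lib.MP_869d3b_nt.StmK

/-!
# MP_869d3b_nt: piece [K four]
-/

set_option autoImplicit false

open NumberField IsDedekindDomain

namespace Pool.Agent.Lib.MP_869d3b_nt

/-- there is a prime above `2` -/
private theorem kfour_exists (k : Type) [Field k] [NumberField k] :
    ∃ w : HeightOneSpectrum (𝓞 k), (2 : 𝓞 k) ∈ w.asIdeal := by
  have hp : (Ideal.span {(2 : ℤ)}).IsPrime :=
    (Ideal.span_singleton_prime (by norm_num)).2 Int.prime_two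
  obtain ⟨⟨Q, hQ, hQl⟩⟩ := (Ideal.span {(2 : ℤ)}).nonempty_primesOver (S := 𝓞 k)
  have h2 : (2 : 𝓞 k) ∈ Q := by
    have h1 : (2 : ℤ) ∈ Ideal.span {(2 : ℤ)} := Ideal.mem_span_singleton_self 2
    rw [hQl.over, Ideal.mem_comap] at h1
    simpa using h1
  refine ⟨⟨Q, hQ, ?_⟩, h2⟩
  rintro rfl
  rw [Ideal.mem_bot] at h2
  exact two_ne_zero h2

/-- the comap of a prime under an automorphism -/
private theorem kfour_comap {k : Type} [Field k] [NumberField k] (σ : k ≃ₐ[ℚ] k)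
    (w : HeightOneSpectrum (𝓞 k)) : ∃ w' : HeightOneSpectrum (𝓞 k), ∀ x y : 𝓞 k,
      (y : k) = σ x → (x ∈ w'.asIdeal ↔ y ∈ w.asIdeal) := by
  let e : 𝓞 k ≃+* 𝓞 k := RingOfIntegers.mapRingEquiv (σ : k ≃+* k)
  have hprime := w.isPrime
  refine ⟨⟨w.asIdeal.comap e, Ideal.comap_isPrime _ _, ?_⟩, ?_⟩
  · intro h
    obtain ⟨x, hx, hx0⟩ := Submodule.exists_mem_ne_zero_of_ne_bot w.ne_bot
    have h1 : e.symm x ∈ w.asIdeal.comap e := by
      rw [Ideal.mem_comap, RingEquiv.apply_symm_apply]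
      exact hx
    rw [h, Ideal.mem_bot] at h1
    exact hx0 ((map_eq_zero_iff _ (RingEquiv.injective _)).1 h1)
  · intro x y hy
    have h1 : e x = y := by
      apply RingOfIntegers.ext
      rw [hy]
      rfl
    show x ∈ w.asIdeal.comap e ↔ y ∈ w.asIdeal
    rw [Ideal.mem_comap, h1]

theorem p_Kfour (_hgal : S_Kgal) (haut : S_Kaut) (hpr : S_Kpr) : S_Kfour := by
  intro k _ _ s r hk p₀ ρ hp hρ
  obtain ⟨w, hw⟩ := kfour_exists k
  obtain ⟨-, -, ⟨σ₁, h1s, h1r⟩, ⟨σ₂, h2s, h2r⟩, -⟩ := haut k s r hk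
  obtain ⟨h1, -⟩ := hpr k s r hk p₀ ρ hp hρ
  have two : (2 : k) ≠ 0 := two_ne_zero
  -- the action on `p₀`, `ρ`
  have a1 : σ₁ (p₀ : k) = p₀ := by
    have := congrArg σ₁ hp
    rw [map_mul, map_ofNat, map_add, map_one, h1s, ← hp] at this
    exact mul_left_cancel₀ two this
  have a2 : σ₂ (p₀ : k) = 1 - p₀ := by
    have := congrArg σ₂ hp
    rw [map_mul, map_ofNat, map_add, map_one, h2s] at this
    apply mul_left_cancel₀ two
    linear_combination this + hp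
  have b2 : σ₂ (ρ : k) = ρ := by
    have := congrArg σ₂ hρ
    rw [map_mul, map_ofNat, map_add, map_one, h2r, ← hρ] at this
    exact mul_left_cancel₀ two this
  have b1 : σ₁ (ρ : k) = 1 - ρ := by
    have := congrArg σ₁ hρ
    rw [map_mul, map_ofNat, map_add, map_one, h1r] at this
    apply mul_left_cancel₀ two
    linear_combination this + hρ
  -- the two symmetries
  have f1 : ∀ x : 𝓞 k, (x = p₀ ∨ x = 1 - p₀) → ∀ y y' : 𝓞 k, (y = ρ ∧ y' = 1 - ρ ∨ y = 1 - ρ ∧ y' = ρ) →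
      (∃ w : HeightOneSpectrum (𝓞 k), x ∈ w.asIdeal ∧ y ∈ w.asIdeal) →
      ∃ w : HeightOneSpectrum (𝓞 k), x ∈ w.asIdeal ∧ y' ∈ w.asIdeal := by
    rintro x hx y y' hy ⟨w, hw1, hw2⟩
    obtain ⟨w', hw'⟩ := kfour_comap σ₁ w
    refine ⟨w', (hw' x x ?_).2 hw1, (hw' y' y ?_).2 hw2⟩
    · rcases hx with rfl | rfl
      · exact a1.symm
      · push_cast
        rw [map_sub, map_one, a1]
    · rcases hy with ⟨rfl, rfl⟩ | ⟨rfl, rfl⟩
      · push_cast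
        rw [map_sub, map_one, b1]
        ring
      · push_cast
        rw [b1]
  have f2 : ∀ y : 𝓞 k, (y = ρ ∨ y = 1 - ρ) → ∀ x x' : 𝓞 k,
      (x = p₀ ∧ x' = 1 - p₀ ∨ x = 1 - p₀ ∧ x' = p₀) →
      (∃ w : HeightOneSpectrum (𝓞 k), x ∈ w.asIdeal ∧ y ∈ w.asIdeal) →
      ∃ w : HeightOneSpectrum (𝓞 k), x' ∈ w.asIdeal ∧ y ∈ w.asIdeal := by
    rintro y hy x x' hx ⟨w, hw1, hw2⟩
    obtain ⟨w', hw'⟩ := kfour_comap σ₂ w
    refine ⟨w', (hw' x' x ?_).2 hw1, (hw' y y ?_).2 hw2⟩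
    · rcases hx with ⟨rfl, rfl⟩ | ⟨rfl, rfl⟩
      · push_cast
        rw [map_sub, map_one, a2]
        ring
      · push_cast
        rw [a2]
    · rcases hy with rfl | rfl
      · exact b2.symm
      · push_cast
        rw [map_sub, map_one, b2]
  -- one of the four combinations, hence the first, hence all
  have c0 : ∃ x y : 𝓞 k, (x = p₀ ∨ x = 1 - p₀) ∧ (y = ρ ∨ y = 1 - ρ) ∧
      ∃ w : HeightOneSpectrum (𝓞 k), x ∈ w.asIdeal ∧ y ∈ w.asIdeal := by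
    obtain ⟨hx, hy⟩ := h1 w hw
    rcases hx with ⟨hx, -⟩ | ⟨-, hx⟩ <;> rcases hy with ⟨hy, -⟩ | ⟨-, hy⟩
    · exact ⟨_, _, Or.inl rfl, Or.inl rfl, w, hx, hy⟩
    · exact ⟨_, _, Or.inl rfl, Or.inr rfl, w, hx, hy⟩
    · exact ⟨_, _, Or.inr rfl, Or.inl rfl, w, hx, hy⟩
    · exact ⟨_, _, Or.inr rfl, Or.inr rfl, w, hx, hy⟩
  obtain ⟨x, y, hx, hy, hxy⟩ := c0
  have c1 : ∃ w : HeightOneSpectrum (𝓞 k), p₀ ∈ w.asIdeal ∧ y ∈ w.asIdeal := by
    rcases hx with rfl | rfl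
    · exact hxy
    · exact f2 y hy _ _ (Or.inr ⟨rfl, rfl⟩) hxy
  have c2 : ∃ w : HeightOneSpectrum (𝓞 k), p₀ ∈ w.asIdeal ∧ ρ ∈ w.asIdeal := by
    rcases hy with rfl | rfl
    · exact c1
    · exact f1 _ (Or.inl rfl) _ _ (Or.inr ⟨rfl, rfl⟩) c1
  have c3 := f1 _ (Or.inl rfl) _ _ (Or.inl ⟨rfl, rfl⟩) c2
  exact ⟨c2, c3, f2 _ (Or.inl rfl) _ _ (Or.inl ⟨rfl, rfl⟩) c2,
    f2 _ (Or.inr rfl) _ _ (Or.inl ⟨rfl, rfl⟩) c3⟩

end Pool.Agent.Lib.MP_869d3b_nt
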