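import Pool.Agent.Lib.MP_869d3b_nt.StmK

/-!
# MP_869d3b_nt, [K gal]: `k/ℚ` is Galois of degree four
-/

set_option autoImplicit false

open NumberField IsDedekindDomain

namespace Pool.Agent.Lib.MP_869d3b_nt

open Polynomial in
private theorem kgal_normal {k : Type} [Field k] [NumberField k] (s r : k) (hs : s ^ 2 = -7)
    (hr : r ^ 2 = 2145)
    (hrep : ∀ x : k, ∃ a b c d : ℚ, x = (a : k) + b * s + c * r + d * (s * r)) :
    Normal ℚ k := by
  have hf : ((Polynomial.X ^ 2 + C 7) * (Polynomial.X ^ 2 - C 2145) : ℚ[X]).map (algebraMap ℚ k) =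
      ((Polynomial.X - C s) * (Polynomial.X + C s)) * ((Polynomial.X - C r) * (Polynomial.X + C r)) := by
    have e1 : ((Polynomial.X - C s) * (Polynomial.X + C s) : k[X]) = Polynomial.X ^ 2 + C 7 := by
      have : (C s : k[X]) ^ 2 = - C 7 := by rw [← C_pow, hs, C_neg]
      linear_combination -this
    have e2 : ((Polynomial.X - C r) * (Polynomial.X + C r) : k[X]) = Polynomial.X ^ 2 - C 2145 := by
      have : (C r : k[X]) ^ 2 = C 2145 := by rw [← C_pow, hr]
      linear_combination -this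
    rw [e1, e2]
    simp only [Polynomial.map_mul, Polynomial.map_add, Polynomial.map_sub, Polynomial.map_pow,
      map_X, map_ofNat, Polynomial.map_ofNat]
  have hne : ((Polynomial.X ^ 2 + C 7) * (Polynomial.X ^ 2 - C 2145) : ℚ[X]) ≠ 0 := by
    have m1 : (Polynomial.X ^ 2 + C 7 : ℚ[X]).Monic := monic_X_pow_add_C _ (by norm_num)
    have m2 : (Polynomial.X ^ 2 - C 2145 : ℚ[X]).Monic := monic_X_pow_sub_C _ (by norm_num)
    exact (m1.mul m2).ne_zero
  have hspl : IsSplittingField ℚ k ((Polynomial.X ^ 2 + C 7) * (Polynomial.X ^ 2 - C 2145) : ℚ[X]) := by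
    refine ⟨?_, ?_⟩
    · rw [hf]
      exact ((Splits.X_sub_C s).mul (Splits.X_add_C s)).mul
        ((Splits.X_sub_C r).mul (Splits.X_add_C r))
    · rw [eq_top_iff]
      intro x _
      have ms : s ∈ Algebra.adjoin ℚ
          ((((Polynomial.X ^ 2 + C 7) * (Polynomial.X ^ 2 - C 2145) : ℚ[X]).rootSet k : Set k)) := by
        apply Algebra.subset_adjoin
        rw [mem_rootSet]
        refine ⟨hne, ?_⟩
        rw [← eval_map_algebraMap, hf]
        simp
      have mr : r ∈ Algebra.adjoin ℚ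
          ((((Polynomial.X ^ 2 + C 7) * (Polynomial.X ^ 2 - C 2145) : ℚ[X]).rootSet k : Set k)) := by
        apply Algebra.subset_adjoin
        rw [mem_rootSet]
        refine ⟨hne, ?_⟩
        rw [← eval_map_algebraMap, hf]
        simp
      obtain ⟨a, b, c, d, rfl⟩ := hrep x
      have hq : ∀ q : ℚ, (q : k) ∈ Algebra.adjoin ℚ
          ((((Polynomial.X ^ 2 + C 7) * (Polynomial.X ^ 2 - C 2145) : ℚ[X]).rootSet k : Set k)) := fun q =>
        Subalgebra.algebraMap_mem _ q
      exact add_mem (add_mem (add_mem (hq a) (mul_mem (hq b) ms)) (mul_mem (hq c) mr))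
        (mul_mem (hq d) (mul_mem ms mr))
  exact Normal.of_isSplittingField ((Polynomial.X ^ 2 + C 7) * (Polynomial.X ^ 2 - C 2145) : ℚ[X])

theorem p_Kgal (hind : S_Kind) (hrep : S_Krep) : S_Kgal := by
  intro k _ _ s r hK
  have hn : Normal ℚ k := kgal_normal s r hK.hs hK.hr (hrep k s r hK)
  refine ⟨⟨⟩, ?_⟩
  have li : LinearIndependent ℚ ![(1 : k), s, r, s * r] := by
    rw [Fintype.linearIndependent_iff]
    intro g hg
    simp only [Fin.sum_univ_four, Matrix.cons_val_zero, Matrix.cons_val_one, Matrix.cons_val,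
      Rat.smul_def, mul_one] at hg
    obtain ⟨h0, h1, h2, h3⟩ := hind k s r hK (g 0) (g 1) (g 2) (g 3) hg
    intro i
    fin_cases i
    · exact h0
    · exact h1
    · exact h2
    · exact h3
  have sp : ⊤ ≤ Submodule.span ℚ (Set.range ![(1 : k), s, r, s * r]) := by
    intro x _
    obtain ⟨a, b, c, d, rfl⟩ := hrep k s r hK x
    have hm : ∀ i : Fin 4, ∀ q : ℚ, (q : k) * ![(1 : k), s, r, s * r] i ∈
        Submodule.span ℚ (Set.range ![(1 : k), s, r, s * r]) := by
      intro i q
      rw [← Rat.smul_def]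
      exact Submodule.smul_mem _ _ (Submodule.subset_span ⟨i, rfl⟩)
    have m0 := hm 0 a
    rw [Matrix.cons_val_zero, mul_one] at m0
    exact add_mem (add_mem (add_mem m0 (hm 1 b)) (hm 2 c)) (hm 3 d)
  rw [Module.finrank_eq_card_basis (Module.Basis.mk li sp), Fintype.card_fin]

end Pool.Agent.Lib.MP_869d3b_nt
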