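import Pool.Agent.Lib.MP_869d3b_nt.StmK

/-!
# MP_869d3b_nt, piece `[K ind]`: `1, s, r, sr` are linearly independent over `ℚ`
-/

set_option autoImplicit false

open NumberField IsDedekindDomain

namespace Pool.Agent.Lib.MP_869d3b_nt

private theorem kind_two {k : Type} [Field k] [CharZero k] {s : k} (hs : s ^ 2 = -7) (e f : ℚ)
    (h : (e : k) + f * s = 0) : e = 0 ∧ f = 0 := by
  by_cases hf : f = 0
  · subst hf
    rw [Rat.cast_zero, zero_mul, add_zero] at h
    exact ⟨Rat.cast_eq_zero.1 h, rfl⟩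
  · exfalso
    have hfk : (f : k) ≠ 0 := Rat.cast_ne_zero.2 hf
    have h1 : s = ((-(e / f) : ℚ) : k) := by
      push_cast
      field_simp
      linear_combination h
    rw [h1] at hs
    have h2 : (-(e / f)) ^ 2 = (-7 : ℚ) := by exact_mod_cast hs
    have h3 : 0 ≤ (-(e / f)) ^ 2 := sq_nonneg _
    rw [h2] at h3
    norm_num at h3

private theorem kind_sq (e : ℚ) : e ^ 2 ≠ 2145 := by
  intro h
  have h1 : IsSquare ((2145 : ℕ) : ℚ) := ⟨e, by rw [← sq, h]; norm_num⟩
  rw [Rat.isSquare_natCast_iff] at h1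
  obtain ⟨m, hm⟩ := h1
  have h2 : m < 47 := by nlinarith
  have h3 : 46 < m := by nlinarith
  omega

private theorem kind_three {k : Type} [Field k] [CharZero k] {s r : k} (hs : s ^ 2 = -7)
    (hr : r ^ 2 = 2145) (e f : ℚ) : r ≠ e + f * s := by
  intro h
  have h1 : ((e ^ 2 - 7 * f ^ 2 - 2145 : ℚ) : k) + ((2 * e * f : ℚ) : k) * s = 0 := by
    push_cast
    rw [h] at hr
    linear_combination hr - (f : k) ^ 2 * hs
  obtain ⟨h2, h3⟩ := kind_two hs _ _ h1
  have h4 : e = 0 ∨ f = 0 := by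
    rcases mul_eq_zero.1 h3 with h5 | h5
    · left
      linarith
    · right
      exact h5
  rcases h4 with rfl | rfl
  · nlinarith [sq_nonneg f]
  · exact kind_sq e (by linarith)

/-- `1, s, r, sr` are linearly independent over `ℚ` -/
theorem p_Kind : S_Kind := by
  intro k _ _ s r hK a b c d h
  have hs := hK.hs
  have hr := hK.hr
  have hcd : c ^ 2 + 7 * d ^ 2 = 0 := by
    by_contra hne
    have hnek : ((c ^ 2 + 7 * d ^ 2 : ℚ) : k) ≠ 0 := Rat.cast_ne_zero.2 hne
    refine kind_three hs hr (-(a * c + 7 * b * d) / (c ^ 2 + 7 * d ^ 2))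
      (-(b * c - a * d) / (c ^ 2 + 7 * d ^ 2)) ?_
    push_cast at hnek ⊢
    field_simp
    linear_combination ((c : k) - d * s) * h + ((b : k) * d + (d : k) ^ 2 * r) * hs
  have hc : c = 0 := by nlinarith [sq_nonneg c, sq_nonneg d]
  have hd : d = 0 := by nlinarith [sq_nonneg c, sq_nonneg d]
  subst hc hd
  simp only [Rat.cast_zero, zero_mul, add_zero] at h
  obtain ⟨h1, h2⟩ := kind_two hs a b h
  exact ⟨h1, h2, rfl, rfl⟩

end Pool.Agent.Lib.MP_869d3b_nt
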