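import Pool.Agent.Lib.MP_869d3b_nt.StmK

/-!
# MP_869d3b_nt, [K pr]: the primes of `k` above `2` are determined by `p₀` and `ρ`
-/

set_option autoImplicit false

open NumberField IsDedekindDomain

namespace Pool.Agent.Lib.MP_869d3b_nt

open Pointwise in
/-- if `σ` maps `w` to `w'` and `σ x = 1 - x` then exactly one of the ideals contains `x` -/
private theorem kpr_flip {k : Type} [Field k] [NumberField k] (σ : k ≃ₐ[ℚ] k) (w w' : Ideal (𝓞 k))
    (hσ : σ • w = w') (x : 𝓞 k) (hx : σ (x : k) = 1 - (x : k))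
    (hw : (x ∈ w ∧ 1 - x ∉ w) ∨ (x ∉ w ∧ 1 - x ∈ w))
    (hw' : (x ∈ w' ∧ 1 - x ∉ w') ∨ (x ∉ w' ∧ 1 - x ∈ w')) (h : x ∈ w ↔ x ∈ w') : False := by
  have e : σ • x = 1 - x := by
    apply RingOfIntegers.ext
    change σ (x : k) = 1 - (x : k)
    exact hx
  have e' : σ • (1 - x) = x := by
    rw [smul_sub, smul_one, e]
    ring
  have key : ∀ y : 𝓞 k, y ∈ w → σ • y ∈ w' := by
    intro y hy
    rw [← hσ]
    exact Ideal.smul_mem_pointwise_smul σ y w hy
  rcases hw with ⟨h1, h2⟩ | ⟨h1, h2⟩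
  · have := key x h1
    rw [e] at this
    rcases hw' with ⟨_, h4⟩ | ⟨h3, _⟩
    · exact h4 this
    · exact h3 (h.1 h1)
  · have := key _ h2
    rw [e'] at this
    exact h1 (h.2 this)

theorem p_Kpr (hgal : S_Kgal) (haut : S_Kaut) : S_Kpr := by
  intro k _ _ s r hk p₀ ρ hp hρ
  have e1 : p₀ * (1 - p₀) = 2 := by
    apply RingOfIntegers.ext
    have h := hk.hs
    change (p₀ : k) * (1 - (p₀ : k)) = 2
    have h3 : (p₀ : k) = (1 + s) / 2 := by rw [← hp]; ring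
    rw [h3]
    linear_combination (-1 / 4 : k) * h
  have e2 : ρ * (1 - ρ) = 2 * (-268) := by
    apply RingOfIntegers.ext
    have h := hk.hr
    change (ρ : k) * (1 - (ρ : k)) = 2 * (-268)
    have h3 : (ρ : k) = (1 + r) / 2 := by rw [← hρ]; ring
    rw [h3]
    linear_combination (-1 / 4 : k) * h
  have gen : ∀ (w : HeightOneSpectrum (𝓞 k)) (x c : 𝓞 k), (2 : 𝓞 k) ∈ w.asIdeal →
      x * (1 - x) = 2 * c →
      (x ∈ w.asIdeal ∧ 1 - x ∉ w.asIdeal) ∨ (x ∉ w.asIdeal ∧ 1 - x ∈ w.asIdeal) := by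
    intro w x c h2 hx
    have h1 : (1 : 𝓞 k) ∉ w.asIdeal := fun h => w.isPrime.ne_top ((Ideal.eq_top_iff_one _).2 h)
    have hno : x ∈ w.asIdeal → 1 - x ∈ w.asIdeal → False := by
      intro ha hb
      apply h1
      have := w.asIdeal.add_mem ha hb
      rwa [add_sub_cancel] at this
    have hm : x * (1 - x) ∈ w.asIdeal := by
      rw [hx]
      exact Ideal.mul_mem_right _ _ h2
    rcases w.isPrime.mem_or_mem hm with h | h
    · exact Or.inl ⟨h, fun h' => hno h h'⟩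
    · exact Or.inr ⟨fun h' => hno h' h, h⟩
  have g1 : ∀ w : HeightOneSpectrum (𝓞 k), (2 : 𝓞 k) ∈ w.asIdeal →
      ((p₀ ∈ w.asIdeal ∧ 1 - p₀ ∉ w.asIdeal) ∨ (p₀ ∉ w.asIdeal ∧ 1 - p₀ ∈ w.asIdeal)) :=
    fun w h => gen w p₀ 1 h (by rw [e1, mul_one])
  have g2 : ∀ w : HeightOneSpectrum (𝓞 k), (2 : 𝓞 k) ∈ w.asIdeal →
      ((ρ ∈ w.asIdeal ∧ 1 - ρ ∉ w.asIdeal) ∨ (ρ ∉ w.asIdeal ∧ 1 - ρ ∈ w.asIdeal)) :=
    fun w h => gen w ρ (-268) h e2
  refine ⟨fun w h => ⟨g1 w h, g2 w h⟩, ?_, ?_, ?_⟩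
  · intro w h
    rw [← e1]
    exact Ideal.mul_mem_right _ _ h
  · intro w h
    rw [← e1]
    exact Ideal.mul_mem_left _ _ h
  · intro w w' h2 h2' hpp hρρ
    haveI : IsGalois ℚ k := (hgal k s r hk).1
    obtain ⟨a1, a2, _⟩ := haut k s r hk
    have hmax : (Ideal.span {(2 : ℤ)}).IsMaximal :=
      PrincipalIdealRing.isMaximal_of_irreducible Int.prime_two.irreducible
    have hover : ∀ v : HeightOneSpectrum (𝓞 k), (2 : 𝓞 k) ∈ v.asIdeal →
        v.asIdeal.LiesOver (Ideal.span {(2 : ℤ)}) := by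
      intro v hv
      constructor
      refine hmax.eq_of_le ?_ ?_
      · have := v.isPrime
        exact (Ideal.IsPrime.under ℤ v.asIdeal).ne_top
      · rw [Ideal.span_singleton_le_iff_mem, Ideal.mem_under]
        simpa using hv
    haveI := w.isPrime
    haveI := w'.isPrime
    haveI := hover w h2
    haveI := hover w' h2'
    obtain ⟨σ, hσ⟩ := Ideal.exists_smul_eq_of_isGaloisGroup (Ideal.span {(2 : ℤ)}) w.asIdeal
      w'.asIdeal (k ≃ₐ[ℚ] k)
    have hp' : (p₀ : k) = (1 + s) / 2 := by rw [← hp]; ring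
    have hρ' : (ρ : k) = (1 + r) / 2 := by rw [← hρ]; ring
    have hs : σ s = s := by
      rcases (a1 σ).1 with h | h
      · exact h
      · exact (kpr_flip σ _ _ hσ p₀ (by
          rw [hp', map_div₀, map_add, map_one, h, map_ofNat]; ring) (g1 w h2) (g1 w' h2') hpp).elim
    have hr : σ r = r := by
      rcases (a1 σ).2 with h | h
      · exact h
      · exact (kpr_flip σ _ _ hσ ρ (by
          rw [hρ', map_div₀, map_add, map_one, h, map_ofNat]; ring) (g2 w h2) (g2 w' h2') hρρ).elim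
    have h1 : σ = 1 := a2 σ hs hr
    rw [h1, one_smul] at hσ
    exact HeightOneSpectrum.ext hσ

end Pool.Agent.Lib.MP_869d3b_nt
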