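import Pool.Agent.Lib.MP_869d3b_nt.StmK

/-!
# MP_869d3b_nt, piece [K rep]: `1, s, r, sr` generate `k` over `ℚ`
-/

set_option autoImplicit false

open NumberField IsDedekindDomain

namespace Pool.Agent.Lib.MP_869d3b_nt

/-- The subalgebra of all `a + b s + c r + d s r`. -/
private def krep_sub (k : Type) [Field k] [NumberField k] (s r : k) (hs : s ^ 2 = -7)
    (hr : r ^ 2 = 2145) : Subalgebra ℚ k where
  carrier := {x | ∃ a b c d : ℚ, x = (a : k) + b * s + c * r + d * (s * r)}
  mul_mem' := by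
    rintro x y ⟨a, b, c, d, rfl⟩ ⟨a', b', c', d', rfl⟩
    refine ⟨a * a' - 7 * b * b' + 2145 * c * c' - 7 * 2145 * d * d',
      a * b' + b * a' + 2145 * c * d' + 2145 * d * c',
      a * c' + c * a' - 7 * b * d' - 7 * d * b',
      a * d' + d * a' + b * c' + c * b', ?_⟩
    push_cast
    linear_combination ((b : k) * b' + (b * d' + d * b') * r + d * d' * r ^ 2) * hs +
      ((c : k) * c' + (c * d' + d * c') * s - 7 * d * d') * hr
  add_mem' := by
    rintro x y ⟨a, b, c, d, rfl⟩ ⟨a', b', c', d', rfl⟩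
    refine ⟨a + a', b + b', c + c', d + d', ?_⟩
    push_cast
    ring
  algebraMap_mem' := by
    intro q
    refine ⟨q, 0, 0, 0, ?_⟩
    simp

theorem p_Krep : S_Krep := by
  intro k _ _ s r h x
  have h1 : (⊤ : Subalgebra ℚ k) = Algebra.adjoin ℚ {s, r} := by
    rw [← IntermediateField.adjoin_toSubalgebra, h.top, IntermediateField.top_toSubalgebra]
  have h2 : Algebra.adjoin ℚ {s, r} ≤ krep_sub k s r h.hs h.hr := by
    refine Algebra.adjoin_le ?_
    rintro y (rfl | rfl)
    · exact ⟨0, 1, 0, 0, by simp⟩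
    · exact ⟨0, 0, 1, 0, by simp⟩
  have h3 : x ∈ krep_sub k s r h.hs h.hr := h2 (h1 ▸ Algebra.mem_top)
  exact h3

end Pool.Agent.Lib.MP_869d3b_nt
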