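import Pool.Agent.Lib.MP_869d3b_nt.StmK

/-!
# MP_869d3b_nt, piece [K sig]
-/

set_option autoImplicit false

open NumberField IsDedekindDomain

namespace Pool.Agent.Lib.MP_869d3b_nt

theorem p_Ksig (hint : S_Kint) (hpr : S_Kpr) (hfour : S_Kfour) : S_Ksig := by
  intro k _ _ s r hK p₀ hp
  obtain ⟨_, ρ, hρ⟩ := hint k s r hK
  obtain ⟨h1, h2, _, h4⟩ := hpr k s r hK p₀ ρ hp hρ
  obtain ⟨⟨v, hv1, hv2⟩, ⟨v', hv1', hv2'⟩, _, _⟩ := hfour k s r hK p₀ ρ hp hρ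
  have hnot : ∀ w : HeightOneSpectrum (𝓞 k), ρ ∈ w.asIdeal → 1 - ρ ∈ w.asIdeal → False := by
    intro w ha hb
    have h : (1 : 𝓞 k) ∈ w.asIdeal := by
      have := w.asIdeal.add_mem ha hb
      rwa [add_sub_cancel] at this
    exact w.isPrime.ne_top ((Ideal.eq_top_iff_one _).2 h)
  refine ⟨v, v', ?_, ?_⟩
  · intro h
    rw [← h] at hv2'
    exact hnot v hv2 hv2'
  · ext w
    change p₀ ∈ w.asIdeal ↔ w = v ∨ w = v'
    constructor
    · intro hw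
      have hw2 := h2 w hw
      rcases (h1 w hw2).2 with ⟨ha, _⟩ | ⟨ha, _⟩
      · left
        exact h4 w v hw2 (h2 v hv1) ⟨fun _ => hv1, fun _ => hw⟩ ⟨fun _ => hv2, fun _ => ha⟩
      · right
        exact h4 w v' hw2 (h2 v' hv1') ⟨fun _ => hv1', fun _ => hw⟩
          ⟨fun h => absurd h ha, fun h => (hnot v' h hv2').elim⟩
    · rintro (rfl | rfl)
      · exact hv1
      · exact hv1'

end Pool.Agent.Lib.MP_869d3b_nt
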