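import Pool.Agent.Lib.MP_869d3b_nt.StmK

/-!
# MP_869d3b_nt, piece `Ksplit`

Every prime of `k⁺` above `2` splits in `k`.
-/

set_option autoImplicit false

open NumberField IsDedekindDomain

namespace Pool.Agent.Lib.MP_869d3b_nt

private lemma ksplit_comap (k : Type) [Field k] [NumberField k] [IsCMField k]
    (v : HeightOneSpectrum (𝓞 k)) :
    (conjPrime k v).asIdeal.comap (algebraMap (𝓞 (maximalRealSubfield k)) (𝓞 k)) =
      v.asIdeal.comap (algebraMap (𝓞 (maximalRealSubfield k)) (𝓞 k)) := by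
  ext x
  rw [Ideal.mem_comap, Ideal.mem_comap]
  change IsCMField.ringOfIntegersComplexConj k
    (algebraMap (𝓞 (maximalRealSubfield k)) (𝓞 k) x) ∈ v.asIdeal ↔ _
  rw [AlgEquiv.commutes]

theorem p_Ksplit (hint : S_Kint) (hpr : S_Kpr) (hcj : S_Kcj) : S_Ksplit := by
  intro k _ _ _ s r hk q hq hq2
  obtain ⟨⟨p₀, hp₀⟩, ρ, hρ⟩ := hint k s r hk
  have := hq
  obtain ⟨Q, hQ, hQc⟩ := Ideal.exists_ideal_over_prime_of_isIntegral_of_isDomain
    (S := 𝓞 k) q (by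
      rw [(RingHom.injective_iff_ker_eq_bot _).1
        (FaithfulSMul.algebraMap_injective (𝓞 (maximalRealSubfield k)) (𝓞 k))]
      exact bot_le)
  have hQ2 : (2 : 𝓞 k) ∈ Q := by
    have h1 : ((2 : ℕ) : 𝓞 (maximalRealSubfield k)) ∈
        Q.comap (algebraMap (𝓞 (maximalRealSubfield k)) (𝓞 k)) := by
      rw [hQc]
      exact hq2
    rw [Ideal.mem_comap, map_natCast] at h1
    exact_mod_cast h1
  have hQ0 : Q ≠ ⊥ := by
    intro h
    rw [h, Ideal.mem_bot] at hQ2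
    exact two_ne_zero hQ2
  let v : HeightOneSpectrum (𝓞 k) := ⟨Q, hQ, hQ0⟩
  refine ⟨v, conjPrime k v, ?_, hQc, ?_⟩
  · intro hv
    obtain ⟨h1, h2, -, -⟩ := hcj k s r hk p₀ hp₀ v
    obtain ⟨h3, -, -, -⟩ := hpr k s r hk p₀ ρ hp₀ hρ
    rw [← hv] at h1 h2
    rcases (h3 v hQ2).1 with ⟨ha, hb⟩ | ⟨ha, hb⟩
    · exact hb (h1.1 ha)
    · exact ha (h2.1 hb)
  · rw [ksplit_comap]
    exact hQc

end Pool.Agent.Lib.MP_869d3b_nt
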