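import Pool.Agent.Lib.MP_869d3b_nt.StmK

set_option autoImplicit false

open NumberField IsDedekindDomain

namespace Pool.Agent.Lib.MP_869d3b_nt

private lemma ksq_rat (n : ℕ) (hn : ¬ IsSquare n) (q : ℚ) : q ^ 2 ≠ (n : ℚ) := by
  intro h
  apply hn
  rw [← Rat.isSquare_natCast_iff]
  exact ⟨q, by rw [← h]; ring⟩

private lemma ksq_two : ¬ IsSquare (2 : ℕ) := by
  rintro ⟨r, hr⟩
  have : r < 2 := by nlinarith
  interval_cases r <;> omega

private lemma ksq_273 : ¬ IsSquare (273 : ℕ) := by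
  rintro ⟨r, hr⟩
  have : r < 17 := by nlinarith
  interval_cases r <;> omega

private lemma ksq_385 : ¬ IsSquare (385 : ℕ) := by
  rintro ⟨r, hr⟩
  have : r < 20 := by nlinarith
  interval_cases r <;> omega

private lemma ksq_core (hind : S_Kind) (hrep : S_Krep) (k : Type) [Field k] [NumberField k]
    (s r : k) (hK : IsK k s r) (e f : ℚ) (h : IsSquare ((e : k) + f * s)) :
    (∃ a b : ℚ, e = a ^ 2 - 7 * b ^ 2 ∧ f = 2 * a * b) ∨
      ∃ c d : ℚ, e = 2145 * (c ^ 2 - 7 * d ^ 2) ∧ f = 2 * 2145 * c * d := by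
  obtain ⟨y, hy⟩ := h
  obtain ⟨a, b, c, d, rfl⟩ := hrep k s r hK y
  have key := hind k s r hK (a ^ 2 - 7 * b ^ 2 + 2145 * (c ^ 2 - 7 * d ^ 2) - e)
    (2 * a * b + 2 * 2145 * c * d - f) (2 * a * c - 14 * b * d) (2 * a * d + 2 * b * c) (by
      have hs := hK.hs
      have hr := hK.hr
      push_cast
      linear_combination (-1 : k) * hy - (b ^ 2 + d ^ 2 * r ^ 2 + 2 * b * d * r : k) * hs -
        (c ^ 2 + 2 * c * d * s - 7 * d ^ 2 : k) * hr)
  obtain ⟨k1, k2, k3, k4⟩ := key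
  have hprod : (a ^ 2 + 7 * b ^ 2) * (c ^ 2 + 7 * d ^ 2) = 0 := by
    have e1 : a * c - 7 * b * d = 0 := by linarith
    have e2 : a * d + b * c = 0 := by linarith
    have : (a ^ 2 + 7 * b ^ 2) * (c ^ 2 + 7 * d ^ 2) =
        (a * c - 7 * b * d) ^ 2 + 7 * (a * d + b * c) ^ 2 := by ring
    rw [this, e1, e2]; ring
  rcases mul_eq_zero.1 hprod with h0 | h0
  · right
    have ha : a = 0 := by nlinarith [sq_nonneg a, sq_nonneg b]
    have hb : b = 0 := by nlinarith [sq_nonneg a, sq_nonneg b]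
    subst ha hb
    exact ⟨c, d, by linarith, by linarith⟩
  · left
    have hc : c = 0 := by nlinarith [sq_nonneg c, sq_nonneg d]
    have hd : d = 0 := by nlinarith [sq_nonneg c, sq_nonneg d]
    subst hc hd
    exact ⟨a, b, by linarith, by linarith⟩

/-- norm form -/
private lemma ksq_norm {e f : ℚ} (h : (∃ a b : ℚ, e = a ^ 2 - 7 * b ^ 2 ∧ f = 2 * a * b) ∨
      ∃ c d : ℚ, e = 2145 * (c ^ 2 - 7 * d ^ 2) ∧ f = 2 * 2145 * c * d) :
    ∃ q : ℚ, q ^ 2 = e ^ 2 + 7 * f ^ 2 := by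
  rcases h with ⟨a, b, rfl, rfl⟩ | ⟨c, d, rfl, rfl⟩
  · exact ⟨a ^ 2 + 7 * b ^ 2, by ring⟩
  · exact ⟨2145 * (c ^ 2 + 7 * d ^ 2), by ring⟩

theorem p_Ksq (hind : S_Kind) (hrep : S_Krep) : S_Ksq := by
  intro k _ _ s r hK p hp
  have hpe : p = ((1 / 2 : ℚ) : k) + ((1 / 2 : ℚ) : k) * s := by
    push_cast
    linear_combination (1 / 2 : k) * hp
  refine ⟨?_, ?_, ?_, ?_⟩
  · intro h
    have e1 : -p = ((-1 / 2 : ℚ) : k) + ((-1 / 2 : ℚ) : k) * s := by
      rw [hpe]; push_cast; ring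
    rw [e1] at h
    obtain ⟨q, hq⟩ := ksq_norm (ksq_core hind hrep k s r hK _ _ h)
    exact ksq_rat 2 ksq_two q (by rw [hq]; norm_num)
  · intro h
    have e1 : -(1 - p) = ((-1 / 2 : ℚ) : k) + ((1 / 2 : ℚ) : k) * s := by
      rw [hpe]; push_cast; ring
    rw [e1] at h
    obtain ⟨q, hq⟩ := ksq_norm (ksq_core hind hrep k s r hK _ _ h)
    exact ksq_rat 2 ksq_two q (by rw [hq]; norm_num)
  · intro h
    have e1 : (-39 : k) = ((-39 : ℚ) : k) + ((0 : ℚ) : k) * s := by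
      push_cast; ring
    rw [e1] at h
    rcases ksq_core hind hrep k s r hK _ _ h with ⟨a, b, h1, h2⟩ | ⟨c, d, h1, h2⟩
    · have : a * b = 0 := by linarith
      rcases mul_eq_zero.1 this with h0 | h0
      · subst h0
        exact ksq_rat 273 ksq_273 (7 * b) (by push_cast; linarith)
      · subst h0
        nlinarith [sq_nonneg a]
    · have : c * d = 0 := by linarith
      rcases mul_eq_zero.1 this with h0 | h0
      · subst h0
        exact ksq_rat 385 ksq_385 (385 * d) (by push_cast; linarith)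
      · subst h0
        nlinarith [sq_nonneg c]
  · intro h
    have e1 : 39 * p = ((39 / 2 : ℚ) : k) + ((39 / 2 : ℚ) : k) * s := by
      rw [hpe]; push_cast; ring
    rw [e1] at h
    obtain ⟨q, hq⟩ := ksq_norm (ksq_core hind hrep k s r hK _ _ h)
    refine ksq_rat 2 ksq_two (q / 39) ?_
    rw [div_pow, hq]; norm_num

end Pool.Agent.Lib.MP_869d3b_nt
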