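import Pool.Agent.Lib.MP_869d3b_nt.StmK

/-!
# MP_869d3b_nt : `k = ℚ(s, r)` is totally complex
-/

set_option autoImplicit false

open NumberField IsDedekindDomain

namespace Pool.Agent.Lib.MP_869d3b_nt

theorem p_Ktc : S_Ktc := by
  intro k _ _ s r hk
  refine ⟨fun w => ?_⟩
  rw [← InfinitePlace.not_isReal_iff_isComplex]
  intro hw
  have h := congrArg (InfinitePlace.embedding_of_isReal hw) hk.hs
  rw [map_pow, map_neg, map_ofNat] at h
  have h2 := sq_nonneg (InfinitePlace.embedding_of_isReal hw s)
  linarith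

end Pool.Agent.Lib.MP_869d3b_nt
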