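import Pool.Agent.Lib.MP_869d3b_nt.StmK

set_option autoImplicit false

open NumberField IsDedekindDomain

namespace Pool.Agent.Lib.MP_869d3b_nt

private theorem kunit_pow {k : Type} [Field k] {r : k} (hr : r ^ 2 = 2145) (n : ℕ) :
    ∃ A B : ℕ, 0 < A ∧ 0 < B ∧ (28159 + 608 * r) ^ (n + 1) = (A : k) + B * r := by
  induction n with
  | zero => exact ⟨28159, 608, by norm_num, by norm_num, by push_cast; ring⟩
  | succ n ih =>
    obtain ⟨A, B, hA, hB, h⟩ := ih
    refine ⟨28159 * A + 608 * 2145 * B, 28159 * B + 608 * A, by omega, by omega, ?_⟩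
    rw [pow_succ, h]
    push_cast
    linear_combination (608 * (B : k)) * hr

theorem p_Kunit (hind : S_Kind) : S_Kunit := by
  intro k _ _ s r hk
  have hr := hk.hr
  have hint : IsIntegral ℤ r := by
    refine ⟨Polynomial.X ^ 2 - Polynomial.C 2145,
      Polynomial.monic_X_pow_sub_C 2145 two_ne_zero, ?_⟩
    rw [Polynomial.eval₂_sub, Polynomial.eval₂_pow, Polynomial.eval₂_X, Polynomial.eval₂_C, hr]
    norm_num
  let r₀ : 𝓞 k := ⟨r, hint⟩
  have hr₀ : (r₀ : k) = r := rfl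
  have e1 : (28159 + 608 * r₀) * (28159 - 608 * r₀) = (1 : 𝓞 k) := by
    apply RingOfIntegers.ext
    simp only [map_mul, map_add, map_sub, map_ofNat, map_one, hr₀]
    linear_combination (-608 ^ 2 : k) * hr
  let ε : (𝓞 k)ˣ := ⟨28159 + 608 * r₀, 28159 - 608 * r₀, e1, by rw [mul_comm]; exact e1⟩
  have hε : ((ε : 𝓞 k) : k) = 28159 + 608 * r := by
    change ((28159 + 608 * r₀ : 𝓞 k) : k) = 28159 + 608 * r
    simp only [map_mul, map_add, map_ofNat, hr₀]
  refine ⟨ε, hε, ?_⟩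
  intro n hn h
  obtain ⟨m, rfl⟩ : ∃ m, n = m + 1 := ⟨n - 1, by omega⟩
  obtain ⟨A, B, hA, hB, hAB⟩ := kunit_pow hr m
  have h1 : (28159 + 608 * r) ^ (m + 1) = 1 := by
    rw [← hε, ← map_pow, ← Units.val_pow_eq_pow_val, h, Units.val_one, map_one]
  rw [hAB] at h1
  have h2 := hind k s r hk ((A : ℚ) - 1) 0 B 0 (by
    push_cast
    linear_combination h1)
  have h3 : (B : ℚ) = 0 := h2.2.2.1
  rw [Nat.cast_eq_zero] at h3
  omega

end Pool.Agent.Lib.MP_869d3b_nt
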