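import Pool.Agent.Lib.MP_869d3b_nt.StmK

/-!
# MP_869d3b_nt, [K aut]: the Galois group of `k = ℚ(s, r)`
-/

set_option autoImplicit false

open NumberField IsDedekindDomain

namespace Pool.Agent.Lib.MP_869d3b_nt

private lemma kaut_sign {k : Type} [Field k] [NumberField k] (x : k) (q : ℚ)
    (hx : x ^ 2 = (q : k)) (σ : k ≃ₐ[ℚ] k) : σ x = x ∨ σ x = -x := by
  have h : (σ x) ^ 2 = x ^ 2 := by
    rw [← map_pow, hx, map_ratCast]
  exact sq_eq_sq_iff_eq_or_eq_neg.mp h

private lemma kaut_ext (hrep : S_Krep) {k : Type} [Field k] [NumberField k] {s r : k}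
    (hk : IsK k s r) (σ τ : k ≃ₐ[ℚ] k) (hs : σ s = τ s) (hr : σ r = τ r) : σ = τ := by
  ext x
  obtain ⟨a, b, c, d, rfl⟩ := hrep k s r hk x
  simp only [map_add, map_mul, map_ratCast, hs, hr]

private lemma kaut_all (hrep : S_Krep) (hgal : S_Kgal) {k : Type} [Field k] [NumberField k]
    {s r : k} (hk : IsK k s r) (u v : Bool) :
    ∃ σ : k ≃ₐ[ℚ] k, (σ s = s ↔ u = true) ∧ (σ r = r ↔ v = true) := by
  classical
  obtain ⟨hG, hfin⟩ := hgal k s r hk
  have hcard : Nat.card (k ≃ₐ[ℚ] k) = 4 := by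
    rw [IsGalois.card_aut_eq_finrank, hfin]
  let f : (k ≃ₐ[ℚ] k) → Bool × Bool := fun σ => (decide (σ s = s), decide (σ r = r))
  have hs2 : s ^ 2 = ((-7 : ℚ) : k) := by rw [hk.hs]; norm_num
  have hr2 : r ^ 2 = ((2145 : ℚ) : k) := by rw [hk.hr]; norm_num
  have hinj : Function.Injective f := by
    intro σ τ h
    have h1 : (σ s = s ↔ τ s = s) := by
      have := congrArg Prod.fst h
      simpa [f] using this
    have h2 : (σ r = r ↔ τ r = r) := by
      have := congrArg Prod.snd h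
      simpa [f] using this
    apply kaut_ext hrep hk
    · by_cases h : σ s = s
      · rw [h, h1.mp h]
      · rw [(kaut_sign s _ hs2 σ).resolve_left h,
          (kaut_sign s _ hs2 τ).resolve_left (fun h' => h (h1.mpr h'))]
    · by_cases h : σ r = r
      · rw [h, h2.mp h]
      · rw [(kaut_sign r _ hr2 σ).resolve_left h,
          (kaut_sign r _ hr2 τ).resolve_left (fun h' => h (h2.mpr h'))]
  have hbij : Function.Bijective f := by
    apply hinj.bijective_of_nat_card_le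
    rw [hcard, Nat.card_eq_fintype_card]
    simp
  obtain ⟨σ, hσ⟩ := hbij.2 (u, v)
  refine ⟨σ, ?_, ?_⟩
  · have h := congrArg Prod.fst hσ
    have h' : decide (σ s = s) = u := h
    rw [← h', decide_eq_true_iff]
  · have h := congrArg Prod.snd hσ
    have h' : decide (σ r = r) = v := h
    rw [← h', decide_eq_true_iff]

/-- [K aut] The Galois group of `k/ℚ`. -/
theorem p_Kaut (hrep : S_Krep) (hgal : S_Kgal) : S_Kaut := by
  intro k _ _ s r hk
  have hs2 : s ^ 2 = ((-7 : ℚ) : k) := by rw [hk.hs]; norm_num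
  have hr2 : r ^ 2 = ((2145 : ℚ) : k) := by rw [hk.hr]; norm_num
  refine ⟨fun σ => ⟨kaut_sign s _ hs2 σ, kaut_sign r _ hr2 σ⟩, ?_, ?_, ?_, ?_⟩
  · intro σ h1 h2
    exact kaut_ext hrep hk σ 1 (by simpa using h1) (by simpa using h2)
  · obtain ⟨σ, h1, h2⟩ := kaut_all hrep hgal hk true false
    refine ⟨σ, h1.mpr rfl, (kaut_sign r _ hr2 σ).resolve_left (fun h => ?_)⟩
    exact Bool.false_ne_true (h2.mp h)
  · obtain ⟨σ, h1, h2⟩ := kaut_all hrep hgal hk false true
    refine ⟨σ, (kaut_sign s _ hs2 σ).resolve_left (fun h => ?_), h2.mpr rfl⟩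
    exact Bool.false_ne_true (h1.mp h)
  · obtain ⟨σ, h1, h2⟩ := kaut_all hrep hgal hk false false
    refine ⟨σ, (kaut_sign s _ hs2 σ).resolve_left (fun h => ?_),
      (kaut_sign r _ hr2 σ).resolve_left (fun h => ?_)⟩
    · exact Bool.false_ne_true (h1.mp h)
    · exact Bool.false_ne_true (h2.mp h)

end Pool.Agent.Lib.MP_869d3b_nt
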