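import Pool.Agent.Lib.MP_869d3b_nt.StmK

/-!
# MP_869d3b_nt, [K int]: the integers `p₀` and `ρ`
-/

set_option autoImplicit false

open NumberField IsDedekindDomain

namespace Pool.Agent.Lib.MP_869d3b_nt

open Polynomial in
private theorem kint_aux {k : Type} [Field k] [NumberField k] (x : k) (c : ℤ)
    (h : x ^ 2 - x + (c : k) = 0) : ∃ y : 𝓞 k, (y : k) = x := by
  have hi : IsIntegral ℤ x := by
    refine ⟨Polynomial.X ^ 2 - Polynomial.X + Polynomial.C c, by monicity!, ?_⟩
    simp only [eval₂_add, eval₂_sub, eval₂_pow, eval₂_X, eval₂_C]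
    simpa using h
  exact ⟨⟨x, hi⟩, rfl⟩

theorem p_Kint : S_Kint := by
  intro k _ _ s r hk
  refine ⟨?_, ?_⟩
  · obtain ⟨y, hy⟩ := kint_aux ((1 + s) / 2 : k) 2 (by
      have h := hk.hs
      push_cast
      linear_combination (1 / 4 : k) * h)
    exact ⟨y, by rw [hy]; ring⟩
  · obtain ⟨y, hy⟩ := kint_aux ((1 + r) / 2 : k) (-536) (by
      have h := hk.hr
      push_cast
      linear_combination (1 / 4 : k) * h)
    exact ⟨y, by rw [hy]; ring⟩

end Pool.Agent.Lib.MP_869d3b_nt
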