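import Pool.Agent.Lib.MP_869d3b_nt.K.Kind
import Pool.Agent.Lib.MP_869d3b_nt.K.Krep
import Pool.Agent.Lib.MP_869d3b_nt.K.Kgal
import Pool.Agent.Lib.MP_869d3b_nt.K.Kaut
import Pool.Agent.Lib.MP_869d3b_nt.K.Ktc
import Pool.Agent.Lib.MP_869d3b_nt.K.Kex
import Pool.Agent.Lib.MP_869d3b_nt.K.Kconj
import Pool.Agent.Lib.MP_869d3b_nt.K.Kint
import Pool.Agent.Lib.MP_869d3b_nt.K.Ksq
import Pool.Agent.Lib.MP_869d3b_nt.K.Kunit
import Pool.Agent.Lib.MP_869d3b_nt.K.Kpr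
import Pool.Agent.Lib.MP_869d3b_nt.K.Kfour
import Pool.Agent.Lib.MP_869d3b_nt.K.Kdeg
import Pool.Agent.Lib.MP_869d3b_nt.K.Ksig
import Pool.Agent.Lib.MP_869d3b_nt.K.Kcj
import Pool.Agent.Lib.MP_869d3b_nt.K.Kcm
import Pool.Agent.Lib.MP_869d3b_nt.K.Ksplit

/-!
# MP_869d3b_nt : the concrete field `k`, all statements
-/

set_option autoImplicit false

namespace Pool.Agent.Lib.MP_869d3b_nt

theorem t_Kind : S_Kind := p_Kind

theorem t_Krep : S_Krep := p_Krep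

theorem t_Kgal : S_Kgal := p_Kgal t_Kind t_Krep

theorem t_Kaut : S_Kaut := p_Kaut t_Krep t_Kgal

theorem t_Ktc : S_Ktc := p_Ktc

theorem t_Kex : S_Kex := p_Kex t_Kgal t_Kaut t_Ktc

theorem t_Kconj : S_Kconj := p_Kconj

theorem t_Kint : S_Kint := p_Kint

theorem t_Ksq : S_Ksq := p_Ksq t_Kind t_Krep

theorem t_Kunit : S_Kunit := p_Kunit t_Kind

theorem t_Kpr : S_Kpr := p_Kpr t_Kgal t_Kaut

theorem t_Kfour : S_Kfour := p_Kfour t_Kgal t_Kaut t_Kpr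

theorem t_Kdeg : S_Kdeg := p_Kdeg t_Kgal t_Kint t_Kpr t_Kfour

theorem t_Ksig : S_Ksig := p_Ksig t_Kint t_Kpr t_Kfour

theorem t_Kcj : S_Kcj := p_Kcj t_Kconj

theorem t_Kcm : S_Kcm := p_Kcm t_Kint t_Kpr t_Kcj

theorem t_Ksplit : S_Ksplit := p_Ksplit t_Kint t_Kpr t_Kcj

end Pool.Agent.Lib.MP_869d3b_nt
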